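import Pool.Agent.H55.BQ.Targets

/-!
Row DKU of the board bpq_modules (`MP_bacf0e_co`): a deck transformation is determined by one value.
-/

set_option autoImplicit false

namespace Pool.Agent.H13.BPQ

open Pool.Agent.H55.BP Pool.Agent.H55.BQ

theorem pf_DKU : T_DKU := by
  intro n T h h' hr hr' c hc
  funext x
  obtain ⟨l, rfl⟩ := T.conn c x
  induction l with
  | nil => exact hc
  | cons i l ih => rw [List.foldr_cons, hr, hr', ih]

end Pool.Agent.H13.BPQ
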