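import Pool.Agent.H55.BQ.Targets

/-!
Row GAT of the board bpq_modules (`MP_bacf0e_co`): the gate.
-/

set_option autoImplicit false

namespace Pool.Agent.H13.BPQ

open Pool.Agent.H55.BP Pool.Agent.H55.BQ

variable {n : ℕ} (T : LT n)

/-- a walk which starts in the direction `j` from `c` stays there or returns to `c` -/
theorem ret (c : T.V) (j : Fin n) (x : T.V) (hx : T.dir c x = some j) (l : List (Fin n)) :
    (∃ l1 l2, l = l1 ++ l2 ∧ l2.foldr T.r x = c) ∨ T.dir c (l.foldr T.r x) = some j := by
  induction l with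
  | nil => exact Or.inr hx
  | cons i l ih =>
    rcases ih with ⟨l1, l2, h1, h2⟩ | h
    · exact Or.inl ⟨i :: l1, l2, by rw [h1, List.cons_append], h2⟩
    · have hy : l.foldr T.r x ≠ c := by
        intro hc
        rw [hc, (T.dir_none c c).2 rfl] at h
        exact absurd h (by simp)
      by_cases hc : T.r i (l.foldr T.r x) = c
      · exact Or.inl ⟨[], i :: l, rfl, hc⟩
      · right
        rw [List.foldr_cons, T.dir_step c _ i hy hc]
        exact h

/-- the distance gets smaller -/
theorem shorter (m : ℕ) : ∀ (l : List (Fin n)) (c e : T.V) (s : Fin n), l.length = m →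
    T.dir c e = some s → l.foldr T.r c = e →
    ∃ l' : List (Fin n), l'.length < l.length ∧ l'.foldr T.r (T.r s c) = e := by
  induction m using Nat.strong_induction_on with
  | _ m ih =>
    intro l c e s hl hd he
    rcases List.eq_nil_or_concat l with h | ⟨l0, j, h⟩
    · rw [h] at he
      have : c = e := he
      rw [(T.dir_none c e).2 this] at hd
      exact absurd hd (by simp)
    · rw [h, List.concat_eq_append, List.foldr_append, List.foldr_cons, List.foldr_nil] at he
      have hlen : l.length = l0.length + 1 := by rw [h, List.length_concat]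
      by_cases hj : j = s
      · exact ⟨l0, by omega, by rw [← hj]; exact he⟩
      · rcases ret T c j (T.r j c) (T.dir_r j c) l0 with ⟨l1, l2, h1, h2⟩ | h1
        · have h3 : l1.foldr T.r c = e := by
            rw [h1, List.foldr_append, h2] at he
            exact he
          have h4 : l0.length = l1.length + l2.length := by rw [h1, List.length_append]
          obtain ⟨l', h5, h6⟩ := ih l1.length (by omega) l1 c e s rfl hd h3
          exact ⟨l', by omega, h6⟩
        · rw [he, hd] at h1
          exact absurd (Option.some.inj h1).symm hj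

theorem pf_GAT (hBT : T_BT) : T_GAT := by
  classical
  intro n T ι _ E S a lf' ha hS hE
  obtain ⟨b0, hb0, b1, hb1, hb01⟩ := Finset.one_lt_card.1 (show 1 < S.card by omega)
  have hex : ∀ b ∈ S, ∃ b' ∈ S, b' ≠ b := by
    intro b _
    by_cases h : b0 = b
    · exact ⟨b1, hb1, fun h2 => hb01 (h.trans h2.symm)⟩
    · exact ⟨b0, hb0, h⟩
  have hne : ∀ b ∈ S, a ≠ b := fun b hb h => ha (h ▸ hb)
  -- the search for the gate
  have key : ∀ (m : ℕ) (l : List (Fin n)) (c : T.V), l.length = m → l.foldr T.r c = E b0 →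
      (∃ δ, T.dir c (E a) = some δ ∧ ∀ b ∈ S, T.dir c (E b) ≠ some δ) →
      ∃ g δ, T.dir g (E a) = some δ ∧ (∀ b ∈ S, T.dir g (E b) ≠ some δ) ∧
        ∃ b ∈ S, ∃ b' ∈ S, T.dir g (E b) ≠ T.dir g (E b') := by
    intro m
    induction m using Nat.strong_induction_on with
    | _ m ih =>
      intro l c hl hc ⟨δ, h1, h2⟩
      by_cases hd : ∃ b ∈ S, ∃ b' ∈ S, T.dir c (E b) ≠ T.dir c (E b')
      · exact ⟨c, δ, h1, h2, hd⟩
      · push Not at hd
        rcases hs : T.dir c (E b0) with _ | s
        · exfalso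
          have e1 : c = E b0 := (T.dir_none _ _).1 hs
          have e2 := hd b1 hb1 b0 hb0
          rw [hs, e1, hE b0 (Finset.mem_insert_of_mem hb0) b1 (Finset.mem_insert_of_mem hb1)
            hb01] at e2
          exact absurd e2 (by simp)
        · obtain ⟨l', h3, h4⟩ := shorter T l.length l c (E b0) s rfl hs hc
          have h5 : s ≠ δ := by
            intro h
            exact h2 b0 hb0 (by rw [hs, h])
          refine ih l'.length (by omega) l' (T.r s c) rfl h4 ⟨s, ?_, fun b hb => ?_⟩
          · refine T.dir_base c (E a) s ?_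
            rw [h1]
            intro h
            exact h5 (Option.some.inj h).symm
          · exact T.dir_base' c (E b) s (by rw [hd b hb b0 hb0, hs])
  obtain ⟨l, hl⟩ := T.conn (T.r (lf' a) (E a)) (E b0)
  obtain ⟨g, δ, h1, h2, b, hb, b', hb', h3⟩ := key l.length l _ rfl hl ⟨lf' a, by
    refine T.dir_base (E a) (E a) (lf' a) ?_
    rw [(T.dir_none _ _).2 rfl]
    simp, fun b hb => T.dir_base' (E a) (E b) (lf' a)
      (hE a (Finset.mem_insert_self _ _) b (Finset.mem_insert_of_mem hb) (hne b hb))⟩
  have h4 : ∀ b ∈ S, T.dir g (E b) ≠ none := by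
    intro b hb hn
    have e1 : g = E b := (T.dir_none _ _).1 hn
    obtain ⟨b', hb', hbb⟩ := hex b hb
    have e2 := hE b (Finset.mem_insert_of_mem hb) b' (Finset.mem_insert_of_mem hb') (Ne.symm hbb)
    have e3 := hE b (Finset.mem_insert_of_mem hb) a (Finset.mem_insert_self _ _)
      (Ne.symm (hne b hb))
    rw [← e1] at e2 e3
    exact h2 b' hb' (by rw [e2, ← e3, h1])
  refine ⟨g, δ, h1, fun b hb => ⟨h4 b hb, h2 b hb⟩, ⟨b, hb, b', hb', h3⟩, ?_⟩
  intro c hc
  have hgE : ∀ b ∈ S, g ≠ E b := fun b hb h => h4 b hb ((T.dir_none _ _).2 h)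
  have hga : g ≠ E a := by
    intro h
    rw [(T.dir_none _ _).2 h] at h1
    exact absurd h1 (by simp)
  by_cases hd : T.dir g c = some δ
  · right
    have h5 : ∀ b ∈ S, T.dir c (E b) = T.dir c g := fun b hb =>
      hBT T g c (E b) (Ne.symm hc) (hgE b hb) (by rw [hd]; exact Ne.symm (h2 b hb))
    intro b hb b' hb'
    rw [h5 b hb, h5 b' hb']
  · left
    have h5 : T.dir c (E a) = T.dir c g :=
      hBT T g c (E a) (Ne.symm hc) hga (by rw [h1]; exact hd)
    by_cases h6 : T.dir g c = T.dir g (E b)
    · have h7 : T.dir g c ≠ T.dir g (E b') := by rw [h6]; exact h3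
      exact ⟨b', hb', h5.trans (hBT T g c (E b') (Ne.symm hc) (hgE b' hb') h7).symm⟩
    · exact ⟨b, hb, h5.trans (hBT T g c (E b) (Ne.symm hc) (hgE b hb) h6).symm⟩

end Pool.Agent.H13.BPQ
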