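import Pool.Agent.H55.BQ.Targets

/-!
Row HOM of the board bpq_modules (`MP_bacf0e_co`): a homeomorphism of the plane which moves given
points to `0, ..., n - 1`.
-/

set_option autoImplicit false

namespace Pool.Agent.H13.BPQ

open Pool.Agent.H55.BP Pool.Agent.H55.BQ
open Complex Finset

/-- vertical shear -/
noncomputable def shr (g : ℝ → ℝ) (hg : Continuous g) : ℂ ≃ₜ ℂ where
  toFun z := z + ((g z.re : ℝ) : ℂ) * I
  invFun z := z - ((g z.re : ℝ) : ℂ) * I
  left_inv z := by
    have h : (z + ((g z.re : ℝ) : ℂ) * I).re = z.re := by simp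
    simp only [h]
    ring
  right_inv z := by
    have h : (z - ((g z.re : ℝ) : ℂ) * I).re = z.re := by simp
    simp only [h]
    ring
  continuous_toFun := by fun_prop
  continuous_invFun := by fun_prop

/-- horizontal shear -/
noncomputable def shi (g : ℝ → ℝ) (hg : Continuous g) : ℂ ≃ₜ ℂ where
  toFun z := z - ((g z.im : ℝ) : ℂ)
  invFun z := z + ((g z.im : ℝ) : ℂ)
  left_inv z := by
    have h : (z - ((g z.im : ℝ) : ℂ)).im = z.im := by simp
    simp only [h]
    ring
  right_inv z := by
    have h : (z + ((g z.im : ℝ) : ℂ)).im = z.im := by simp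
    simp only [h]
    ring
  continuous_toFun := by fun_prop
  continuous_invFun := by fun_prop

/-- interpolation by a continuous function -/
theorem interp {n : ℕ} (a b : Fin n → ℝ) (ha : Function.Injective a) :
    ∃ g : ℝ → ℝ, Continuous g ∧ ∀ i, g (a i) = b i :=
  ⟨fun x => (Lagrange.interpolate univ a b).eval x, Polynomial.continuous _, fun i =>
    Lagrange.eval_interpolate_at_node b (fun _ _ _ _ h => ha h) (mem_univ i)⟩

theorem exists_mul {n : ℕ} (p : Fin n → ℂ) (hp : Function.Injective p) :
    ∃ c : ℂ, c ≠ 0 ∧ Function.Injective fun i => (c * p i).re := by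
  classical
  obtain ⟨t, ht⟩ := Infinite.exists_notMem_finset
    ((univ : Finset (Fin n × Fin n)).image fun q => (p q.1 - p q.2).re / (p q.1 - p q.2).im)
  refine ⟨1 + t * I, ?_, ?_⟩
  · intro h
    have := congrArg Complex.re h
    simp at this
  · intro i j hij
    by_contra hne
    have h0 : p i - p j ≠ 0 := sub_ne_zero.2 fun h => hne (hp h)
    have h1 : (p i - p j).re - t * (p i - p j).im = 0 := by
      have h2 : ((1 + t * I) * p i).re = ((1 + t * I) * p j).re := hij
      simp at h2
      rw [Complex.sub_re, Complex.sub_im]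
      linarith
    by_cases him : (p i - p j).im = 0
    · rw [him, mul_zero, sub_zero] at h1
      exact h0 (Complex.ext h1 him)
    · refine ht (mem_image.2 ⟨(i, j), mem_univ _, ?_⟩)
      change (p i - p j).re / (p i - p j).im = t
      rw [div_eq_iff him]
      linarith

theorem pf_HOM : T_HOM := by
  intro n p hp
  obtain ⟨c, hc, hi⟩ := exists_mul p hp
  obtain ⟨g, hg, hg'⟩ := interp (fun i => (c * p i).re) (fun i => (i.val : ℝ) - (c * p i).im) hi
  obtain ⟨r, hr, hr'⟩ := interp (fun i : Fin n => (i.val : ℝ)) (fun i => (c * p i).re)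
    (fun i j h => Fin.ext (Nat.cast_injective (R := ℝ) h))
  refine ⟨(Homeomorph.mulLeft₀ c hc).trans ((shr g hg).trans ((shi r hr).trans
    (Homeomorph.mulLeft₀ (-I) (neg_ne_zero.2 I_ne_zero)))), fun i => ?_⟩
  have e1 : shr g hg (c * p i) = ⟨(c * p i).re, i.val⟩ := by
    change c * p i + ((g (c * p i).re : ℝ) : ℂ) * I = _
    rw [hg' i]
    apply Complex.ext <;> simp
  have e2 : shi r hr ⟨(c * p i).re, i.val⟩ = (i.val : ℂ) * I := by
    change (⟨(c * p i).re, i.val⟩ : ℂ) - ((r (i.val : ℝ) : ℝ) : ℂ) = _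
    rw [hr' i]
    apply Complex.ext <;> simp
  change -I * (shi r hr (shr g hg (c * p i))) = _
  rw [e1, e2]
  linear_combination (-(i.val : ℂ)) * I_mul_I

end Pool.Agent.H13.BPQ
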